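import Pool.Agent.H547_g.Index
import Pool.Agent.H547_g.Ob
import Mathlib.Algebra.Category.ModuleCat.Basic

/-!
# The case of coniveau one of the generalized Hodge conjecture for varieties dominated by Fermat varieties

Let `X` be the Fermat variety `x_0 ^ d + ... + x_(n+1) ^ d = 0` of degree `d` and dimension `n`, where
`d ≤ 2 n + 1`. Let `Y` be a smooth projective variety of dimension `n` which is dominated by `X` (for
example a resolution of a quotient of `X` by a finite group; nothing is assumed about the rational map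
`X ⇢ Y`). **Theorem.** If `h ^ (n, 0) (Y) = 0` then the cohomology of `Y` of positive degree vanishes on a
dense open subset of `Y`, as conjectured by Grothendieck, and all zero-cycles of degree zero on `Y` are
torsion, as conjectured by Bloch.

For `n = 2` this is the case `d ≤ 5` (Inose and Mizukami). For `d ≤ n + 1` it is well known, since then `X`
is a Fano variety; here it is proved in about twice this range, in which the Fermat varieties `X` have
`h ^ (n, 0) (X) ≠ 0`, and are of general type for `d ≥ n + 3`.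

Let `𝒞` be the category of the Chow motives over the complex numbers with coefficients in the field `K` of
the roots of unity of order `d`, with the Lefschetz motive `L`. The motive of `X` is the direct sum of the
`L ^ k`, `0 ≤ k ≤ n`, and of the motives of rank one `V(s)`, indexed by the tuples `s` of `n + 2` nonzero
residues modulo `d` with sum zero. The Hodge type of `V(s)` for the embedding `t` of `K`, a unit modulo
`d`, is `(P(- t * s) - 1, P(t * s) - 1)` where `d * P(s)` is the sum of the representatives in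
`{1, ..., d - 1}` of the entries of `s`. The Chow group of zero-cycles of a motive `Y` is `Hom(1, Y)`.

*The hypotheses in Lean.* The structure `FermatMotives` lists the known facts:

* `join`: the inductive structure of Fermat varieties (Shioda, Katsura);
* `point` and `effective`: there are no zero-cycles on `L ^ k`, `k > 0`, and on `L ⊗ V(s_1) ⊗ V(s_2)`,
  because `V(s_1) ⊗ V(s_2)` is effective;
* `whole`: if `V(s)` has Hodge type `(n, 0)` for the embedding `t` then its cohomology is its part of this
  type.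

The structure `Dominated` contains the decomposition of the motive of `X`, the finite-dimensionality of
this motive (Kimura) and that the motive of `Y` is a direct summand.

The proof. Let `s` be a tuple with sum zero which is not a union of two such tuples and let `S` be `s`
without one entry. The set `A` of the sums of the subtuples of `S` has at most `d ≤ 2 |S| - 1` elements. By a
theorem of Savchev, Chen and Yuan there is then a unit `t` such that the representatives of the entries of
`t * s` have sum `d`. We prove this theorem (`Pool/Agent/H547_g/Index.lean`): if one removes an entry `v`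
of `S` then the number of the sums decreases; if it decreases only by one then `A` without `0` is the
translate by `v` of `A` without the sum of `S`, so `v` is determined by `S`. This makes an induction
possible. So each line `V(s)` either has Hodge type `(n, 0)` for some embedding, and then all maps
`V(s) ⟶ Y` are homologically trivial, or `V(s) = L ⊗ V(s_1) ⊗ V(s_2)`. The part of `Y` that comes from the
lines of the first kind is removed by an argument with nilpotent correspondences.
-/

set_option autoImplicit false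

namespace Pool.Agent.Results.MP_1c689d_ag.FermatDominated

open CategoryTheory MonoidalCategory Pool.Agent.H547_g

universe v u

section defs

/-- A character of degree `d`: a nonempty multiset `s` of nonzero residues modulo `d` with sum zero. It
gives the line `V(s)` of the Fermat variety of degree `d` and dimension `|s| - 2`. -/
def IsCharacter (d : ℕ) (s : Multiset (ZMod d)) : Prop := s ≠ 0 ∧ (0 : ZMod d) ∉ s ∧ s.sum = 0

/-- The line `V(s)` has Hodge type `(n, 0)`, `n = |s| - 2`, for the embedding `t`: the representatives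
in `{1, ..., d - 1}` of the residues `t * a`, `a ∈ s`, have sum `d`. -/
def TopType (d : ℕ) (t : (ZMod d)ˣ) (s : Multiset (ZMod d)) : Prop :=
  (s.map fun a => ((t : ZMod d) * a).val).sum = d

/-- The Lefschetz motive `L` and the lines `V(s)` of Fermat varieties of degree `d` in the category `𝒞` of
Chow motives, the cohomology `H` and its part `Top t` of Hodge type `(n, 0)` for the embedding `t` of the
coefficients. The fields are known theorems. -/
structure FermatMotives (d n : ℕ) (𝒞 : Type u) [Category.{v} 𝒞] [Preadditive 𝒞]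
    [MonoidalCategory 𝒞] where
  /-- the Lefschetz motive -/
  L : 𝒞
  /-- the lines -/
  V : Multiset (ZMod d) → 𝒞
  /-- The inductive structure of Fermat varieties. -/
  join : ∀ s t : Multiset (ZMod d), IsCharacter d s → IsCharacter d t →
    Nonempty (V (s + t) ≅ L ⊗ (V s ⊗ V t))
  /-- There are no zero-cycles on `L ^ k`, `k > 0`. -/
  point : ∀ k : ℕ, 0 < k → ∀ z : 𝟙_ 𝒞 ⟶ pow L k, z = 0
  /-- There are no zero-cycles on `L ⊗ V(s) ⊗ V(t)`. -/
  effective : ∀ s t : Multiset (ZMod d), IsCharacter d s → IsCharacter d t →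
    ∀ z : 𝟙_ 𝒞 ⟶ L ⊗ (V s ⊗ V t), z = 0
  /-- the coefficients of the cohomology -/
  K : Type
  [field : Field K]
  /-- the cohomology -/
  H : 𝒞 ⥤ ModuleCat.{0} K
  [additive : H.Additive]
  /-- the part of the cohomology of type `(n, 0)`, for the embedding `t` -/
  Top : (ZMod d)ˣ → 𝒞 ⥤ ModuleCat.{0} ℂ
  /-- The cohomology of a line of type `(n, 0)` for the embedding `t` is its part of this type. -/
  whole : ∀ (s : Multiset (ZMod d)) (t : (ZMod d)ˣ), IsCharacter d s → Multiset.card s = n + 2 →
    TopType d t s → ∀ (Y : 𝒞) (f : V s ⟶ Y), (Top t).map f = 0 → H.map f = 0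

attribute [instance] FermatMotives.field FermatMotives.additive

variable {d n : ℕ} {𝒞 : Type u} [Category.{v} 𝒞] [Preadditive 𝒞] [MonoidalCategory 𝒞]

/-- the powers of an endomorphism -/
def iter {X : 𝒞} (f : X ⟶ X) : ℕ → (X ⟶ X)
  | 0 => 𝟙 X
  | r + 1 => f ≫ iter f r

/-- The motive `Y` is a direct summand of the motive `X` of the Fermat variety of degree `d` and dimension
`n`, which is the direct sum of the `L ^ k`, `k ≤ n`, and of lines `V(s)` of characters with `n + 2`
entries, and is finite-dimensional in the sense of Kimura. -/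
structure Dominated (D : FermatMotives d n 𝒞) (Y : 𝒞) where
  /-- the motive of the Fermat variety -/
  X : 𝒞
  /-- the projection to `L ^ k` -/
  p : ∀ k : Fin (n + 1), X ⟶ pow D.L k
  /-- the inclusion of `L ^ k` -/
  q : ∀ k : Fin (n + 1), pow D.L k ⟶ X
  /-- the index set of the lines -/
  ι : Type
  [fin : Fintype ι]
  /-- the characters -/
  s : ι → Multiset (ZMod d)
  char : ∀ j, IsCharacter d (s j)
  card : ∀ j, Multiset.card (s j) = n + 2
  /-- the projections to the lines -/
  π : ∀ j, X ⟶ D.V (s j)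
  /-- the inclusions of the lines -/
  κ : ∀ j, D.V (s j) ⟶ X
  id : 𝟙 X = ∑ k, p k ≫ q k + ∑ j, π j ≫ κ j
  /-- Homologically trivial endomorphisms of `X` are nilpotent (Kimura). -/
  nilpotent : ∀ f : X ⟶ X, D.H.map f = 0 → ∃ r, iter f r = 0
  /-- the inclusion of `Y` -/
  a : Y ⟶ X
  /-- the projection to `Y` -/
  b : X ⟶ Y
  summand : a ≫ b = 𝟙 Y

attribute [instance] Dominated.fin

/-- `h ^ (n, 0) (Y) = 0`, for all embeddings of the coefficients. -/
def TopVanishes (D : FermatMotives d n 𝒞) (Y : 𝒞) : Prop :=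
  ∀ t : (ZMod d)ˣ, Limits.IsZero ((D.Top t).obj Y)

/-- The cohomology of `Y` comes, through correspondences, from powers `L ^ k`, `k ≤ n` (classes of cycles of
dimension `k`; `L ^ n` is the fundamental class of `Y`), and from motives `L ⊗ V(s_1) ⊗ V(s_2)`, where
`V(s_1) ⊗ V(s_2)` is a part of the motive of a variety of dimension `n - 2`. So the part of positive degree
is supported on a closed subset of dimension at most `n - 1`. -/
def ConiveauOne (D : FermatMotives d n 𝒞) (Y : 𝒞) : Prop :=
  ∃ (ι : Type) (_ : Fintype ι) (G : ι → 𝒞) (α : ∀ i, Y ⟶ G i) (β : ∀ i, G i ⟶ Y),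
    (∀ i, (∃ k ≤ n, G i = pow D.L k) ∨
      ∃ s₁ s₂ : Multiset (ZMod d), IsCharacter d s₁ ∧ IsCharacter d s₂ ∧
        G i = D.L ⊗ (D.V s₁ ⊗ D.V s₂)) ∧
    D.H.map (𝟙 Y) = D.H.map (∑ i, α i ≫ β i)

end defs

section proof

variable {d n : ℕ} {𝒞 : Type u} [Category.{v} 𝒞] [Preadditive 𝒞] [MonoidalCategory 𝒞]

/-- the lines of the second kind -/
lemma split_of_not_top (hd : 0 < d) (hn : d ≤ 2 * n + 1) {s : Multiset (ZMod d)}
    (hs : IsCharacter d s) (hcard : Multiset.card s = n + 2) (h : ¬ ∃ t, TopType d t s) :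
    ∃ s₁ s₂ : Multiset (ZMod d), IsCharacter d s₁ ∧ IsCharacter d s₂ ∧ s = s₁ + s₂ := by
  by_contra hno
  refine h (index_one hd s hs.2.1 hs.2.2 (by omega) ?_)
  intro T R hTR hT hR hsum
  apply hno
  refine ⟨T, R, ⟨hT, fun h => hs.2.1 ?_, hsum⟩, ⟨hR, fun h => hs.2.1 ?_, ?_⟩, hTR⟩
  · rw [hTR]
    exact Multiset.mem_add.mpr (Or.inl h)
  · rw [hTR]
    exact Multiset.mem_add.mpr (Or.inr h)
  · have h1 := hs.2.2
    rw [hTR, Multiset.sum_add, hsum, zero_add] at h1
    exact h1

omit [Preadditive 𝒞] [MonoidalCategory 𝒞] in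
lemma eq_iter {X Z : 𝒞} (y : Z ⟶ X) (f : X ⟶ X) (h : y = y ≫ f) : ∀ r, y = y ≫ iter f r := by
  intro r
  induction r with
  | zero => simp [iter]
  | succ r ih =>
    show y = y ≫ (f ≫ iter f r)
    rw [← Category.assoc, ← h]
    exact ih

variable {D : FermatMotives d n 𝒞} {Y : 𝒞}

/-- maps from lines of the first kind are homologically trivial -/
lemma top_zero (B : Dominated D Y) (hY : TopVanishes D Y) {j : B.ι}
    (h : ∃ t, TopType d t (B.s j)) : D.H.map (B.κ j ≫ B.b) = 0 := by
  obtain ⟨t, ht⟩ := h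
  exact D.whole (B.s j) t (B.char j) (B.card j) ht Y _ ((hY t).eq_of_tgt _ _)

open scoped Classical in
/-- the projection to the lines of the first kind -/
noncomputable def P (B : Dominated D Y) : B.X ⟶ B.X :=
  ∑ j : {j : B.ι // ∃ t, TopType d t (B.s j)}, B.π j.1 ≫ B.κ j.1

open scoped Classical in
/-- the projection to the lines of the second kind -/
noncomputable def P' (B : Dominated D Y) : B.X ⟶ B.X :=
  ∑ j : {j : B.ι // ¬ ∃ t, TopType d t (B.s j)}, B.π j.1 ≫ B.κ j.1

lemma id_eq (B : Dominated D Y) : 𝟙 B.X = ∑ k, B.p k ≫ B.q k + (P B + P' B) := by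
  classical
  unfold P P'
  conv_lhs => rw [B.id]
  congr 1
  exact (Fintype.sum_subtype_add_sum_subtype (fun j => ∃ t, TopType d t (B.s j))
    (fun j => B.π j ≫ B.κ j)).symm

lemma H_P (B : Dominated D Y) (hY : TopVanishes D Y) : D.H.map (P B ≫ B.b) = 0 := by
  classical
  unfold P
  rw [Preadditive.sum_comp, Functor.map_sum]
  refine Finset.sum_eq_zero fun j _ => ?_
  rw [Category.assoc, Functor.map_comp, top_zero B hY j.2, Limits.comp_zero]

/-- **Zero-cycles.** -/
theorem zero_cycles (hd : 0 < d) (hn : d ≤ 2 * n + 1) (B : Dominated D Y) (hY : TopVanishes D Y)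
    (z : 𝟙_ 𝒞 ⟶ Y) (hz : ∀ g : Y ⟶ 𝟙_ 𝒞, z ≫ g = 0) : z = 0 := by
  classical
  set y := z ≫ B.a with hy
  have h1 : y = y ≫ (B.b ≫ B.a) := by
    rw [hy, Category.assoc, ← Category.assoc B.a, B.summand, Category.id_comp]
  have h2 : y ≫ P' B = 0 := by
    unfold P'
    rw [Preadditive.comp_sum]
    refine Finset.sum_eq_zero fun j _ => ?_
    obtain ⟨s₁, s₂, hs1, hs2, hs⟩ := split_of_not_top hd hn (B.char j.1) (B.card j.1) j.2
    obtain ⟨e⟩ := D.join s₁ s₂ hs1 hs2
    have h3 : y ≫ B.π j.1 = 0 := by
      have h4 := D.effective s₁ s₂ hs1 hs2 ((y ≫ B.π j.1) ≫ eqToHom (by rw [hs]) ≫ e.hom)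
      have h5 : y ≫ B.π j.1 = ((y ≫ B.π j.1) ≫ eqToHom (by rw [hs]) ≫ e.hom) ≫ e.inv ≫
          eqToHom (by rw [hs]) := by simp
      rw [h5, h4, Limits.zero_comp]
    rw [← Category.assoc, h3, Limits.zero_comp]
  have h3 : y ≫ (∑ k, B.p k ≫ B.q k) = 0 := by
    rw [Preadditive.comp_sum]
    refine Finset.sum_eq_zero fun k _ => ?_
    rw [← Category.assoc]
    have h4 : y ≫ B.p k = 0 := by
      by_cases hk : k = 0
      · subst hk
        have h5 := hz (B.a ≫ B.p 0)
        rw [← Category.assoc] at h5
        exact h5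
      · exact D.point k (Nat.pos_of_ne_zero fun h => hk (Fin.ext h)) _
    rw [h4, Limits.zero_comp]
  have h4 : y = y ≫ P B := by
    conv_lhs => rw [← Category.comp_id y, id_eq B]
    rw [Preadditive.comp_add, Preadditive.comp_add, h3, h2, add_zero, zero_add]
  have h5 : y = y ≫ (P B ≫ B.b ≫ B.a) := by
    rw [← Category.assoc, ← h4]
    exact h1
  obtain ⟨r, hr⟩ := B.nilpotent (P B ≫ B.b ≫ B.a) (by
    rw [← Category.assoc, Functor.map_comp, H_P B hY, Limits.zero_comp])
  have h6 := eq_iter y _ h5 r
  rw [hr, Limits.comp_zero] at h6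
  have h7 : z = y ≫ B.b := by
    rw [hy, Category.assoc, B.summand, Category.comp_id]
  rw [h7, h6, Limits.zero_comp]

/-- **Coniveau one.** -/
theorem coniveau (hd : 0 < d) (hn : d ≤ 2 * n + 1) (B : Dominated D Y) (hY : TopVanishes D Y) :
    ConiveauOne D Y := by
  classical
  have hsp := fun j : {j : B.ι // ¬ ∃ t, TopType d t (B.s j)} =>
    split_of_not_top hd hn (B.char j.1) (B.card j.1) j.2
  choose s₁ s₂ hs1 hs2 hs using hsp
  have hiso : ∀ j : {j : B.ι // ¬ ∃ t, TopType d t (B.s j)},
      Nonempty (D.V (B.s j.1) ≅ D.L ⊗ (D.V (s₁ j) ⊗ D.V (s₂ j))) := by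
    intro j
    rw [hs j]
    exact D.join _ _ (hs1 j) (hs2 j)
  let e := fun j => (hiso j).some
  refine ⟨Fin (n + 1) ⊕ {j : B.ι // ¬ ∃ t, TopType d t (B.s j)}, inferInstance,
    Sum.elim (fun k => pow D.L k) (fun j => D.L ⊗ (D.V (s₁ j) ⊗ D.V (s₂ j))),
    fun i => match i with
      | Sum.inl k => B.a ≫ B.p k
      | Sum.inr j => B.a ≫ B.π j.1 ≫ (e j).hom,
    fun i => match i with
      | Sum.inl k => B.q k ≫ B.b
      | Sum.inr j => (e j).inv ≫ B.κ j.1 ≫ B.b, ?_, ?_⟩
  · rintro (k | j)
    · exact Or.inl ⟨k, by omega, rfl⟩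
    · exact Or.inr ⟨s₁ j, s₂ j, hs1 j, hs2 j, rfl⟩
  · rw [Fintype.sum_sum_type]
    have h1 : ∑ k : Fin (n + 1), (B.a ≫ B.p k) ≫ (B.q k ≫ B.b) =
        B.a ≫ (∑ k, B.p k ≫ B.q k) ≫ B.b := by
      rw [Preadditive.sum_comp, Preadditive.comp_sum]
      refine Finset.sum_congr rfl fun k _ => ?_
      simp only [Category.assoc]
    have h2 : ∑ j : {j : B.ι // ¬ ∃ t, TopType d t (B.s j)},
        (B.a ≫ B.π j.1 ≫ (e j).hom) ≫ ((e j).inv ≫ B.κ j.1 ≫ B.b) =
        B.a ≫ P' B ≫ B.b := by
      unfold P'
      rw [Preadditive.sum_comp, Preadditive.comp_sum]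
      refine Finset.sum_congr rfl fun j _ => ?_
      simp only [Category.assoc, Iso.hom_inv_id_assoc]
    have h3 : 𝟙 Y = B.a ≫ (∑ k, B.p k ≫ B.q k) ≫ B.b + B.a ≫ P' B ≫ B.b +
        B.a ≫ P B ≫ B.b := by
      have h4 : 𝟙 Y = B.a ≫ 𝟙 B.X ≫ B.b := by rw [Category.id_comp, B.summand]
      rw [h4, id_eq B, Preadditive.add_comp, Preadditive.add_comp, Preadditive.comp_add,
        Preadditive.comp_add]
      abel
    have h5 : D.H.map (B.a ≫ P B ≫ B.b) = 0 := by
      rw [Functor.map_comp, H_P B hY, Limits.comp_zero]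
    rw [h3, Functor.map_add, h5, add_zero, ← h1, ← h2]
    rfl

end proof

/-- **Coniveau one for the varieties dominated by Fermat varieties of dimension `n` and degree
`d ≤ 2 n + 1`.** -/
theorem result (d n : ℕ) (hd : 0 < d) (hn : d ≤ 2 * n + 1) {𝒞 : Type u} [Category.{v} 𝒞]
    [Preadditive 𝒞] [MonoidalCategory 𝒞] (D : FermatMotives d n 𝒞) (Y : 𝒞) (B : Dominated D Y)
    (hY : TopVanishes D Y) :
    ConiveauOne D Y ∧ ∀ z : 𝟙_ 𝒞 ⟶ Y, (∀ g : Y ⟶ 𝟙_ 𝒞, z ≫ g = 0) → z = 0 :=
  ⟨coniveau hd hn B hY, fun z hz => zero_cycles hd hn B hY z hz⟩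

end Pool.Agent.Results.MP_1c689d_ag.FermatDominated
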