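import Pool.Agent.Helper31_gh.Asm4

/-!
# The generalized Hodge conjecture in coniveau one for quotients `(A × Y) / G`

`A` is an abelian variety, `𝓐` is an algebra of endomorphisms of `A` of real type, and the finite group
`G` acts on `A` through `𝓐`. The variety `Y` is a smooth projective variety with an action of `G` which
satisfies the generalized Hodge conjecture in coniveau one.
-/

set_option autoImplicit false

namespace Pool.Agent.Results.MP_1c689d_ag.RealTypeQuotients

open Pool.Agent.Helper31_gh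

/-- If `A × Y` has no nonzero `G`-invariant holomorphic form of degree `i`, then every `G`-invariant
class in `H^i(A × Y, ℚ) = ⨁ H^k(A, ℚ) ⊗ H^e(Y, ℚ)` is supported on a divisor: it is a sum of classes
`f ⊗ x` such that `f` is a product of a divisor class of `A` and of classes of degree one, or `x` is
supported on a divisor of `Y`. -/
theorem result {W : Type*} [AddCommGroup W] [Module ℚ W] {T : Type*} [NormedAddCommGroup T]
    [InnerProductSpace ℂ T] [FiniteDimensional ℂ T] (per : W →+ T) (hA : IsPolarizedAV per)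
    (𝓐 : Subalgebra ℚ (Module.End ℚ W)) (hR : IsRosatiStable per (𝓐 : Set (Module.End ℚ W)))
    (hreal : IsRealType (analytic per (𝓐 : Set (Module.End ℚ W))))
    {G : Type*} [Group G] [Finite G] (ρ : G →* Module.End ℚ W) (hρ : ∀ g, ρ g ∈ 𝓐)
    (Y : HodgeCohomology) (τ : ∀ e, G →* Matrix (Fin (Y.betti e)) (Fin (Y.betti e)) ℚ)
    (hτ : Y.IsAction τ) (N : ∀ e, Submodule ℚ (Fin (Y.betti e) → ℚ)) (hN : Y.ConiveauOne N)
    (i : ℕ)
    (hi : ∀ k e : ℕ, k + e = i → ∀ Φ : T [⋀^Fin k]→ₗ[ℂ] (Fin (Y.betti e) → ℂ),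
      IsInvariantForm per ρ (Y.H e e) (τ e) Φ → Φ = 0) :
    ∀ k e : ℕ, k + e = i → ∀ t : W [⋀^Fin k]→ₗ[ℚ] (Fin (Y.betti e) → ℚ),
      IsInvariantClass ρ (τ e) t → t ∈ supported per k (N e) :=
  fun k e hke t ht => main hA 𝓐 hR hreal ρ hρ Y τ hτ N hN k e (hi k e hke) t ht

end Pool.Agent.Results.MP_1c689d_ag.RealTypeQuotients
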